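import Pool.Agent.X135.TAU.SP0
import Pool.Agent.X328.TAU.Stm2

/-! Part T_SP of project TAU (MP_740d3f_ag). -/

set_option autoImplicit false

open Polynomial

namespace Pool.Agent.X135.TAU

universe u

theorem t_SP : Pool.Agent.X328.TAU.S_SP.{u} := by
  intro K _ _ _ D hD P R u w hPR _ hdeg huw hum hud hwd hF hconj
  obtain ⟨a, b, c, e, hΔ, s, hs, hU, hW⟩ := hconj
  exact core D hD P R u w hPR hdeg huw hum hud hwd hF a b c e hΔ s hs hU hW

end Pool.Agent.X135.TAU
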