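import Pool.Agent.X135.TAU.DIG0
import Pool.Agent.X328.TAU.Stm

/-! Part T_DIG of project TAU (MP_740d3f_ag). -/

set_option autoImplicit false

open Polynomial

namespace Pool.Agent.X135.TAU

universe u

theorem t_DIG : Pool.Agent.X328.TAU.S_DIG.{u} := by
  intro F _ _ d hd hs a b h
  exact dig F d hd hs a b h

end Pool.Agent.X135.TAU
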