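import Mathlib

set_option autoImplicit false

namespace Pool.Agent.X135.TAU

open Finset Polynomial

lemma ar (e j j' : ℕ) (hj : j ≤ e) (hj' : j' ≤ e) :
    (e + 2) ≤ (j' + 1) * (e + 2) ∧ (j' + 1) * (e + 2) + (j + 1) ≤ (e + 2) ^ 2 - 1 ∧
    ((j' + 1) * (e + 2) + (j + 1) = (e + 2) ^ 2 - 1 → j = e ∧ j' = e) ∧
    (j' + 1) + (j + 1) < (e + 2) ^ 2 - 1 ∧ (j' + 1) * (e + 2) < (e + 2) ^ 2 - 1 := by
  have h1 : (e + 2) ^ 2 = e * e + 4 * e + 4 := by ring
  have h2 : (j' + 1) * (e + 2) ≤ (e + 1) * (e + 2) := Nat.mul_le_mul_right _ (by omega)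
  have h3 : (e + 1) * (e + 2) = e * e + 3 * e + 2 := by ring
  have h4 : 1 * (e + 2) ≤ (j' + 1) * (e + 2) := Nat.mul_le_mul_right _ (by omega)
  have h5 : j' < e → (j' + 1) * (e + 2) ≤ e * (e + 2) := fun h => Nat.mul_le_mul_right _ (by omega)
  have h6 : e * (e + 2) = e * e + 2 * e := by ring
  rw [h1]
  refine ⟨by omega, by omega, ?_, by omega, by omega⟩
  intro h
  rcases Nat.lt_or_ge j' e with h7 | h7
  · have := h5 h7; omega
  · omega

theorem dig (F : Type*) [Field F] [CharZero F] (d : ℕ) (hd : 2 ≤ d)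
    (hs : (X ^ (d ^ 2) - X : F[X]).Splits) (a b : Fin (d - 1) → F)
    (h : ∀ ζ : F, ζ ^ (d ^ 2 - 1) = 1 → ∑ i ∈ range 2, (∑ j, a j * (ζ ^ d ^ i) ^ (j.1 + 1) +
      ∑ j, b j * ((ζ ^ d ^ i) ^ (j.1 + 1))⁻¹) = 0) :
    ∀ j, a j = 0 ∧ b j = 0 ∨ j.1 + 2 = d ∧ a j + b j = 0 := by
  classical
  obtain ⟨e, rfl⟩ : ∃ e, d = e + 2 := ⟨d - 2, by omega⟩
  set N := (e + 2) ^ 2 - 1 with hN
  have hle : ∀ j : Fin (e + 2 - 1), j.1 ≤ e := fun j => by have := j.2; omega
  have hd3 : (e + 2) ^ 2 = N + 1 := by
    have : 0 < (e + 2) ^ 2 := Nat.pos_of_ne_zero (pow_ne_zero _ (by omega))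
    omega
  have hN0 : N ≠ 0 := by
    have := (ar e 0 0 (by omega) (by omega)).2.2.2.1
    omega
  have hlt : ∀ (j : Fin (e + 2 - 1)) (i : ℕ), i ∈ range 2 →
      0 < (j.1 + 1) * (e + 2) ^ i ∧ (j.1 + 1) * (e + 2) ^ i < N := by
    intro j i hi
    have hi2 := Finset.mem_range.1 hi
    have h1 := ar e j.1 j.1 (hle j) (hle j)
    interval_cases i
    · rw [pow_zero, mul_one]; omega
    · rw [pow_one]; omega
  let p : F[X] := ∑ i ∈ range 2, (∑ j : Fin (e + 2 - 1), C (a j) * X ^ ((j.1 + 1) * (e + 2) ^ i) +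
    ∑ j : Fin (e + 2 - 1), C (b j) * X ^ (N - (j.1 + 1) * (e + 2) ^ i))
  have hdeg : p.natDegree < N := by
    have : p.natDegree ≤ N - 1 := by
      refine natDegree_sum_le_of_forall_le _ _ ?_
      intro i hi
      refine (natDegree_add_le _ _).trans (max_le ?_ ?_)
      · refine natDegree_sum_le_of_forall_le _ _ ?_
        intro j _
        refine (natDegree_C_mul_X_pow_le _ _).trans ?_
        have := (hlt j i hi).2
        omega
      · refine natDegree_sum_le_of_forall_le _ _ ?_
        intro j _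
        refine (natDegree_C_mul_X_pow_le _ _).trans ?_
        have := (hlt j i hi).1
        omega
    omega
  have hXN0 : (X ^ N - 1 : F[X]) ≠ 0 := by
    have := X_pow_sub_C_ne_zero (Nat.pos_of_ne_zero hN0) (1 : F)
    simpa using this
  have hfac : (X ^ ((e + 2) ^ 2) - X : F[X]) = X * (X ^ N - 1) := by
    rw [hd3]; ring
  have hsplit : (X ^ N - 1 : F[X]).Splits := by
    refine hs.of_dvd ?_ ⟨X, by rw [hfac]; ring⟩
    rw [hfac]
    exact mul_ne_zero X_ne_zero hXN0
  have hsep : (X ^ N - 1 : F[X]).Separable := by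
    have := separable_X_pow_sub_C (1 : F) (n := N) (by exact_mod_cast hN0) one_ne_zero
    simpa using this
  have hcard : (X ^ N - 1 : F[X]).roots.toFinset.card = N := by
    rw [Multiset.toFinset_card_of_nodup (nodup_roots hsep), ← hsplit.natDegree_eq_card_roots]
    have := natDegree_X_pow_sub_C (n := N) (r := (1 : F))
    simpa using this
  have hp : p = 0 := by
    refine eq_zero_of_natDegree_lt_card_of_eval_eq_zero' p (X ^ N - 1 : F[X]).roots.toFinset ?_ ?_
    · intro ζ hζ
      rw [Multiset.mem_toFinset, mem_roots hXN0, IsRoot.def, eval_sub, eval_pow, eval_X, eval_one,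
        sub_eq_zero] at hζ
      have hz0 : ζ ≠ 0 := by
        rintro rfl
        rw [zero_pow hN0] at hζ
        exact zero_ne_one hζ
      rw [← h ζ hζ]
      simp only [p, eval_finsetSum, eval_add, eval_mul, eval_C, eval_pow, eval_X]
      refine Finset.sum_congr rfl fun i hi => ?_
      congr 1
      · refine Finset.sum_congr rfl fun j _ => ?_
        rw [← pow_mul, mul_comm ((e + 2) ^ i)]
      · refine Finset.sum_congr rfl fun j _ => ?_
        congr 1
        rw [← pow_mul, mul_comm ((e + 2) ^ i)]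
        have h1 := (hlt j i hi).2
        refine eq_inv_of_mul_eq_one_left ?_
        rw [← pow_add, Nat.sub_add_cancel (by omega), hζ]
    · rw [hcard]; exact hdeg
  have hcoef : ∀ n : ℕ, (∑ j : Fin (e + 2 - 1), (if n = j.1 + 1 then a j else 0) +
      ∑ j : Fin (e + 2 - 1), (if n = N - (j.1 + 1) then b j else 0)) +
      (∑ j : Fin (e + 2 - 1), (if n = (j.1 + 1) * (e + 2) then a j else 0) +
      ∑ j : Fin (e + 2 - 1), (if n = N - (j.1 + 1) * (e + 2) then b j else 0)) = 0 := by
    intro n
    have : p.coeff n = 0 := by rw [hp, coeff_zero]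
    simp only [p, finsetSum_coeff, coeff_add, coeff_C_mul_X_pow, Finset.sum_range_succ, Finset.sum_range_zero,
      zero_add, pow_zero, mul_one, pow_one] at this
    exact this
  have z : ∀ (c : Fin (e + 2 - 1) → F) (q : Fin (e + 2 - 1) → Prop) [DecidablePred q], (∀ j, ¬ q j) →
      ∑ j, (if q j then c j else 0) = 0 := by
    intro c q _ hq
    exact Finset.sum_eq_zero fun j _ => if_neg (hq j)
  have o : ∀ (c : Fin (e + 2 - 1) → F) (q : Fin (e + 2 - 1) → Prop) [DecidablePred q] (j0 : Fin (e + 2 - 1)),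
      (∀ j, q j ↔ j = j0) → ∑ j, (if q j then c j else 0) = c j0 := by
    intro c q _ j0 hq
    rw [Finset.sum_eq_single j0 (fun j _ hj => if_neg (fun h => hj ((hq j).1 h)))
      (fun h => absurd (Finset.mem_univ _) h), if_pos ((hq j0).2 rfl)]
  intro j
  rcases Nat.lt_or_ge j.1 e with hje | hje
  · left
    constructor
    · have h1 := hcoef (j.1 + 1)
      rw [o a _ j, z b _, z a _, z b _] at h1
      · simpa using h1
      · intro j' h2
        have := ar e j.1 j'.1 (hle j) (hle j')
        have h3 := this.2.2.1 (by omega)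
        omega
      · intro j' h2
        have := ar e j.1 j'.1 (hle j) (hle j')
        omega
      · intro j' h2
        have := ar e j.1 j'.1 (hle j) (hle j')
        omega
      · intro j'
        constructor
        · intro h2; exact Fin.ext (by omega)
        · rintro rfl; rfl
    · have h1 := hcoef (N - (j.1 + 1))
      rw [z a _, o b _ j, z a _, z b _] at h1
      · simpa using h1
      · intro j' h2
        have := ar e j.1 j'.1 (hle j) (hle j')
        omega
      · intro j' h2
        have := ar e j.1 j'.1 (hle j) (hle j')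
        have h3 := this.2.2.1 (by omega)
        omega
      · intro j'
        have := ar e j.1 j'.1 (hle j) (hle j')
        constructor
        · intro h2; exact Fin.ext (by omega)
        · rintro rfl; rfl
      · intro j' h2
        have := ar e j.1 j'.1 (hle j) (hle j')
        omega
  · right
    have hj : j.1 = e := le_antisymm (hle j) hje
    refine ⟨by omega, ?_⟩
    have h1 := hcoef (j.1 + 1)
    rw [o a _ j, z b _, z a _, o b _ j] at h1
    · simpa using h1
    · intro j'
      have h4 := ar e j.1 j'.1 (hle j) (hle j')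
      constructor
      · intro h2
        have h3 := h4.2.2.1 (by omega)
        exact Fin.ext (by omega)
      · rintro rfl
        have h5 : (j'.1 + 1) * (e + 2) + (j'.1 + 1) = (e + 2) ^ 2 - 1 := by
          rw [hj]
          have h6 : (e + 1) * (e + 2) + (e + 1) + 1 = (e + 2) ^ 2 := by ring
          omega
        omega
    · intro j' h2
      have := ar e j.1 j'.1 (hle j) (hle j')
      omega
    · intro j' h2
      have := ar e j.1 j'.1 (hle j) (hle j')
      omega
    · intro j'
      constructor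
      · intro h2; exact Fin.ext (by omega)
      · rintro rfl; rfl

end Pool.Agent.X135.TAU
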