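import Mathlib

/-! Spectrum of a rational map under Moebius conjugation (part T_SP of project TAU of helper328). -/

set_option autoImplicit false

open Finset Polynomial

namespace Pool.Agent.X135.TAU

variable {K : Type*} [Field K]

noncomputable def HM (n : ℕ) (F P Q : K[X]) : K[X] := ∑ i ∈ range (n + 1), C (F.coeff i) * P ^ i * Q ^ (n - i)

noncomputable def ml (P R : K[X]) (x : K) : K := (derivative P * R - P * derivative R).eval x / R.eval x ^ 2

theorem hm_eval (n : ℕ) (F P Q : K[X]) (hF : F.natDegree ≤ n) (y : K) (hy : Q.eval y ≠ 0) :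
    (HM n F P Q).eval y = Q.eval y ^ n * F.eval (P.eval y / Q.eval y) := by
  unfold HM
  rw [eval_finset_sum, eval_eq_sum_range' (Nat.lt_succ_of_le hF), Finset.mul_sum]
  refine Finset.sum_congr rfl fun i hi => ?_
  have hi' : i ≤ n := Nat.lt_succ_iff.1 (Finset.mem_range.1 hi)
  simp only [eval_mul, eval_C, eval_pow]
  rw [div_pow]
  have : Q.eval y ^ n = Q.eval y ^ (n - i) * Q.eval y ^ i := by rw [← pow_add, Nat.sub_add_cancel hi']
  rw [this]
  field_simp

theorem hm_eval0 (n : ℕ) (F P Q : K[X]) (y : K) (hy : Q.eval y = 0) :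
    (HM n F P Q).eval y = F.coeff n * P.eval y ^ n := by
  unfold HM
  rw [eval_finset_sum, Finset.sum_range_succ, Finset.sum_eq_zero]
  · simp
  · intro i hi
    have : n - i ≠ 0 := by have := Finset.mem_range.1 hi; omega
    simp [hy, this]

theorem den_ne (P R : K[X]) (h : IsCoprime P R) (x : K) (hx : (P - X * R).eval x = 0) : R.eval x ≠ 0 := by
  intro h0
  obtain ⟨u, v, huv⟩ := h
  have h1 := congrArg (eval x) huv
  simp only [eval_sub, eval_mul, eval_X, eval_add, eval_one, h0, mul_zero, sub_zero, add_zero] at h1 hx
  rw [hx, mul_zero] at h1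
  exact zero_ne_one h1

theorem ml_eq (P R : K[X]) (h : IsCoprime P R) (x : K) (G : K[X]) (hG : P - X * R = (X - C x) * G) :
    ml P R x = 1 + G.eval x / R.eval x := by
  have hx : (P - X * R).eval x = 0 := by rw [hG]; simp
  have hR := den_ne P R h x hx
  have hd := congrArg (fun p => (derivative p).eval x) hG
  simp only [derivative_sub, derivative_mul, derivative_X, derivative_C, eval_sub, eval_mul, eval_add, eval_X,
    eval_C, eval_one, one_mul, sub_self, zero_mul, add_zero, sub_zero] at hd
  simp only [eval_sub, eval_mul, eval_X] at hx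
  unfold ml
  simp only [eval_sub, eval_mul]
  rw [← hd]
  field_simp
  linear_combination (-eval x (derivative R)) * hx

theorem core [CharZero K] [IsAlgClosed K] (D : ℕ) (hD : 2 ≤ D)
    (P R u w : K[X]) (hPR : IsCoprime P R)
    (hdeg : (P - X * R).natDegree = D + 1) (huw : IsCoprime u w) (hum : u.Monic)
    (hud : u.natDegree = D) (hwd : w.natDegree < D) (hF : (u - X * w).natDegree = D)
    (a b c e : K) (hΔ : a * e - b * c ≠ 0) (s : K) (hs : s ≠ 0)
    (hU : HM D u (C a * X + C b) (C c * X + C e) = C s * (C a * P + C b * R))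
    (hW : HM D w (C a * X + C b) (C c * X + C e) = C s * (C c * P + C e * R)) :
    (P - X * R).roots.map (ml P R) = w.coeff (D - 1) ::ₘ (u - X * w).roots.map (ml u w) := by
  set α : K[X] := C a * X + C b with hα
  set γ : K[X] := C c * X + C e with hγ
  set F : K[X] := u - X * w with hFdef
  have αe : ∀ y : K, α.eval y = a * y + b := fun y => by simp [hα]
  have γe : ∀ y : K, γ.eval y = c * y + e := fun y => by simp [hγ]
  have hγ0 : γ ≠ 0 := by
    intro h
    have h0 := congrArg (fun p => coeff p 0) h
    have h1 := congrArg (fun p => coeff p 1) h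
    simp [hγ] at h0 h1
    apply hΔ; rw [h0, h1]; ring
  have hF0 : F ≠ 0 := by
    intro h; rw [h, natDegree_zero] at hF; omega
  -- pointwise identities
  have pU : ∀ y, γ.eval y ≠ 0 → γ.eval y ^ D * u.eval (α.eval y / γ.eval y) = s * (a * P.eval y + b * R.eval y) := by
    intro y hy
    rw [← hm_eval D u α γ hud.le y hy, hU]; simp
  have pW : ∀ y, γ.eval y ≠ 0 → γ.eval y ^ D * w.eval (α.eval y / γ.eval y) = s * (c * P.eval y + e * R.eval y) := by
    intro y hy
    rw [← hm_eval D w α γ hwd.le y hy, hW]; simp
  have pF : ∀ y, γ.eval y ≠ 0 → s * (a * e - b * c) * (P - X * R).eval y =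
      γ.eval y ^ (D + 1) * F.eval (α.eval y / γ.eval y) := by
    intro y hy
    have h1 := pU y hy
    have h2 := pW y hy
    have h3 : γ.eval y ^ (D + 1) * F.eval (α.eval y / γ.eval y) =
        γ.eval y * (γ.eval y ^ D * u.eval (α.eval y / γ.eval y)) -
          α.eval y * (γ.eval y ^ D * w.eval (α.eval y / γ.eval y)) := by
      rw [hFdef, eval_sub, eval_mul, eval_X, pow_succ]
      field_simp
    rw [h3, h1, h2, αe, γe]
    simp only [eval_sub, eval_mul, eval_X]
    ring
  -- factorisation
  set f : K → K[X] := fun r => α - C r * γ with hf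
  have fe : ∀ r, f r = C (a - r * c) * X + C (b - r * e) := by
    intro r
    simp only [hf, hα, hγ, map_sub, map_mul]; ring
  have hcard : Multiset.card F.roots = D := by
    rw [← hF]; exact splits_iff_card_roots.1 (IsAlgClosed.splits F)
  have hprod : C F.leadingCoeff * (F.roots.map fun r => X - C r).prod = F :=
    C_leadingCoeff_mul_prod_multiset_X_sub_C (by rw [hcard, hF])
  have hM : C (s * (a * e - b * c)) * (P - X * R) = γ * (C F.leadingCoeff * (F.roots.map f).prod) := by
    apply mul_right_cancel₀ hγ0
    apply Polynomial.funext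
    intro y
    by_cases hy : γ.eval y = 0
    · simp [hy]
    · have h1 := pF y hy
      have h2 : F.eval (α.eval y / γ.eval y) =
          F.leadingCoeff * (F.roots.map fun r => α.eval y / γ.eval y - r).prod := by
        conv_lhs => rw [← hprod]
        rw [eval_mul, eval_C, eval_multiset_prod, Multiset.map_map]
        congr 2
        apply Multiset.map_congr rfl
        intro r _
        simp
      have h3 : (F.roots.map f).prod.eval y =
          γ.eval y ^ D * (F.roots.map fun r => α.eval y / γ.eval y - r).prod := by
        rw [eval_multiset_prod, Multiset.map_map, ← hcard, ← Multiset.prod_replicate, ← Multiset.map_const',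
          ← Multiset.prod_map_mul]
        congr 1
        apply Multiset.map_congr rfl
        intro r _
        simp only [hf, Function.comp, eval_sub, eval_mul, eval_C]
        field_simp
      rw [eval_mul, eval_mul, eval_C, h1, eval_mul, eval_mul, eval_mul, eval_C, h2, h3, pow_succ]
      ring
  have hsΔ : s * (a * e - b * c) ≠ 0 := mul_ne_zero hs hΔ
  have hdM : (γ * (C F.leadingCoeff * (F.roots.map f).prod)).natDegree = D + 1 := by
    rw [← hM, natDegree_C_mul hsΔ, hdeg]
  have hdf : ∀ r, (f r).natDegree ≤ 1 := by
    intro r; rw [fe]; exact natDegree_linear_le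
  have hdp : ∀ T : Multiset K, (T.map f).prod.natDegree ≤ Multiset.card T := by
    intro T
    refine le_trans (natDegree_multiset_prod_le _) ?_
    rw [Multiset.map_map]
    refine le_trans (Multiset.sum_le_card_nsmul _ 1 ?_) ?_
    · intro t ht
      obtain ⟨r, _, rfl⟩ := Multiset.mem_map.1 ht
      exact hdf r
    · simp
  have hc : c ≠ 0 := by
    intro h0
    have h1 : γ.natDegree = 0 := by rw [hγ, h0]; simp
    have h2 := natDegree_mul_le (p := γ) (q := C F.leadingCoeff * (F.roots.map f).prod)
    have h3 := natDegree_C_mul_le F.leadingCoeff (F.roots.map f).prod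
    have h4 := hdp F.roots
    rw [hcard] at h4
    omega
  have hac : ∀ r ∈ F.roots, a - r * c ≠ 0 := by
    intro r hr h0
    obtain ⟨T, hT⟩ := Multiset.exists_cons_of_mem hr
    have h1 : (f r).natDegree = 0 := by rw [fe, h0, map_zero, zero_mul, zero_add, natDegree_C]
    have h2 := natDegree_mul_le (p := γ) (q := C F.leadingCoeff * (F.roots.map f).prod)
    have h3 := natDegree_C_mul_le F.leadingCoeff (F.roots.map f).prod
    have h4 := hdp T
    have h5 : Multiset.card T + 1 = D := by rw [← hcard, hT, Multiset.card_cons]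
    have h6 : (F.roots.map f).prod.natDegree ≤ (f r).natDegree + (T.map f).prod.natDegree := by
      rw [hT, Multiset.map_cons, Multiset.prod_cons]; exact natDegree_mul_le
    have h7 : γ.natDegree ≤ 1 := natDegree_linear_le
    omega
  -- roots
  set ψ : K → K := fun r => (e * r - b) / (a - r * c) with hψ
  have froots : ∀ r ∈ F.roots, (f r).roots = {ψ r} := by
    intro r hr
    rw [fe]
    have h0 := hac r hr
    rw [Polynomial.roots_C_mul_X_add_C _ h0]
    have : ψ r = -((a - r * c)⁻¹ * (b - r * e)) := by
      simp only [hψ]; field_simp; ring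
    rw [this]
  have groots : γ.roots = {-(e / c)} := by
    rw [hγ, Polynomial.roots_C_mul_X_add_C _ hc]
    have : -(e / c) = -(c⁻¹ * e) := by field_simp
    rw [this]
  have hne : γ * (C F.leadingCoeff * (F.roots.map f).prod) ≠ 0 := by
    intro h; rw [h, natDegree_zero] at hdM; omega
  have hroots : (P - X * R).roots = (-(e / c)) ::ₘ F.roots.map ψ := by
    rw [← roots_C_mul (P - X * R) hsΔ, hM, roots_mul hne, groots, roots_C_mul _ (leadingCoeff_ne_zero.2 hF0),
      roots_multiset_prod, Multiset.bind_map, ← Multiset.singleton_add]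
    · congr 1
      rw [Multiset.bind_congr froots, Multiset.bind_singleton]
    · intro h
      obtain ⟨r, hr, hr0⟩ := Multiset.mem_map.1 h
      have := froots r hr
      rw [hr0, roots_zero] at this
      exact absurd this.symm (Multiset.singleton_ne_zero _)
  have hRx : ∀ x, s * (a * e - b * c) * R.eval x = a * (HM D w α γ).eval x - c * (HM D u α γ).eval x := by
    intro x
    rw [hU, hW]; simp; ring
  rw [hroots, Multiset.map_cons]
  congr 1
  · -- the fixed point at infinity
    set x0 : K := -(e / c) with hx0
    have hγx : γ.eval x0 = 0 := by rw [γe, hx0]; field_simp; ring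
    have hγf : γ = C c * (X - C x0) := by
      rw [hγ, mul_sub, ← C_mul]
      have : c * x0 = -e := by rw [hx0]; field_simp
      rw [this]; simp
    have hroot : (P - X * R).IsRoot x0 := by
      rw [← mem_roots (by intro h; rw [h, natDegree_zero] at hdeg; omega), hroots]
      exact Multiset.mem_cons_self _ _
    obtain ⟨G, hG⟩ := dvd_iff_isRoot.2 hroot
    rw [ml_eq P R hPR x0 G hG]
    have hR := den_ne P R hPR x0 hroot
    have hid : C (s * (a * e - b * c)) * G = C c * HM D F α γ := by
      have hz : (X - C x0) * γ ≠ 0 := mul_ne_zero (X_sub_C_ne_zero x0) hγ0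
      apply mul_left_cancel₀ hz
      apply Polynomial.funext
      intro y
      by_cases hy : γ.eval y = 0
      · simp [hy]
      · have h1 := pF y hy
        rw [hG] at h1
        have h2 : γ.eval y = c * (y - x0) := by rw [hγf]; simp
        have h3 := hm_eval D F α γ hF.le y hy
        simp only [eval_mul, eval_sub, eval_X, eval_C] at h1 ⊢
        rw [h3]
        calc (y - x0) * γ.eval y * (s * (a * e - b * c) * G.eval y)
            = γ.eval y * (s * (a * e - b * c) * ((y - x0) * G.eval y)) := by ring
          _ = γ.eval y * (γ.eval y ^ (D + 1) * F.eval (α.eval y / γ.eval y)) := by rw [h1]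
          _ = γ.eval y * γ.eval y * (γ.eval y ^ D * F.eval (α.eval y / γ.eval y)) := by
              rw [pow_succ]; ring
          _ = γ.eval y * (c * (y - x0)) * (γ.eval y ^ D * F.eval (α.eval y / γ.eval y)) := by
              rw [← h2]
          _ = (y - x0) * γ.eval y * (c * (γ.eval y ^ D * F.eval (α.eval y / γ.eval y))) := by ring
    have e1 := congrArg (eval x0) hid
    rw [eval_mul, eval_mul, eval_C, eval_C, hm_eval0 D F α γ x0 hγx] at e1
    have e2 := hRx x0
    rw [hm_eval0 D w α γ x0 hγx, hm_eval0 D u α γ x0 hγx, coeff_eq_zero_of_natDegree_lt hwd] at e2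
    have hu1 : u.coeff D = 1 := by rw [← hud]; exact hum
    have hF1 : F.coeff D = 1 - w.coeff (D - 1) := by
      rw [hFdef, coeff_sub, hu1]
      congr 1
      obtain ⟨k, rfl⟩ : ∃ k, D = k + 1 := ⟨D - 1, by omega⟩
      rw [coeff_X_mul]; rfl
    rw [hu1] at e2
    rw [hF1] at e1
    have hαx : α.eval x0 ≠ 0 := by
      rw [αe, hx0]
      intro h
      apply hΔ
      field_simp at h
      linear_combination (-1) * h
    have hαD : α.eval x0 ^ D ≠ 0 := pow_ne_zero _ hαx
    have e3 : G.eval x0 = -(1 - w.coeff (D - 1)) * R.eval x0 := by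
      apply mul_left_cancel₀ hsΔ
      rw [e1]
      have : s * (a * e - b * c) * (-(1 - w.coeff (D - 1)) * R.eval x0) =
        -(1 - w.coeff (D - 1)) * (s * (a * e - b * c) * R.eval x0) := by ring
      rw [this, e2]; ring
    rw [e3]
    field_simp
    ring
  · rw [Multiset.map_map]
    apply Multiset.map_congr rfl
    intro r hr
    change ml P R (ψ r) = ml u w r
    have har := hac r hr
    set x : K := ψ r with hx
    have hrx : x * (a - r * c) = e * r - b := by rw [hx, hψ]; field_simp
    have hγx : γ.eval x * (a - r * c) = a * e - b * c := by rw [γe]; linear_combination c * hrx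
    have hγx0 : γ.eval x ≠ 0 := by intro h; rw [h, zero_mul] at hγx; exact hΔ hγx.symm
    have hαx : α.eval x = r * γ.eval x := by
      rw [αe, γe]; linear_combination hrx
    have ht : α.eval x / γ.eval x = r := by rw [hαx]; field_simp
    have hFr : F.IsRoot r := isRoot_of_mem_roots hr
    obtain ⟨F1, hF1⟩ := dvd_iff_isRoot.2 hFr
    have hF1d : F1.natDegree ≤ D := by
      have hz : F1 ≠ 0 := by rintro rfl; rw [mul_zero] at hF1; exact hF0 hF1
      rw [← hF, hF1, natDegree_mul (X_sub_C_ne_zero r) hz]; omega
    have hroot : (P - X * R).IsRoot x := by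
      rw [← mem_roots (by intro h; rw [h, natDegree_zero] at hdeg; omega), hroots]
      exact Multiset.mem_cons_of_mem (Multiset.mem_map.2 ⟨r, hr, rfl⟩)
    obtain ⟨G, hG⟩ := dvd_iff_isRoot.2 hroot
    rw [ml_eq P R hPR x G hG, ml_eq u w huw r F1 hF1]
    have hR := den_ne P R hPR x hroot
    have hw := den_ne u w huw r hFr
    have hid : C (s * (a * e - b * c)) * G = C (a - r * c) * HM D F1 α γ := by
      have hz : (X - C x) * γ ≠ 0 := mul_ne_zero (X_sub_C_ne_zero x) hγ0
      apply mul_left_cancel₀ hz
      apply Polynomial.funext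
      intro y
      by_cases hy : γ.eval y = 0
      · simp [hy]
      · have h1 := pF y hy
        rw [hG, hF1] at h1
        have h3 := hm_eval D F1 α γ hF1d y hy
        simp only [eval_mul, eval_sub, eval_X, eval_C] at h1 ⊢
        rw [h3]
        have h5 : (y - x) * (a - r * c) = γ.eval y * (α.eval y / γ.eval y - r) := by
          have : γ.eval y * (α.eval y / γ.eval y - r) = α.eval y - r * γ.eval y := by field_simp
          rw [this, αe, γe]; linear_combination (-1) * hrx
        calc (y - x) * γ.eval y * (s * (a * e - b * c) * G.eval y)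
            = γ.eval y * (s * (a * e - b * c) * ((y - x) * G.eval y)) := by ring
          _ = γ.eval y * (γ.eval y ^ (D + 1) * ((α.eval y / γ.eval y - r) * F1.eval (α.eval y / γ.eval y))) := by
              rw [h1]
          _ = (γ.eval y * (α.eval y / γ.eval y - r)) * γ.eval y * (γ.eval y ^ D * F1.eval (α.eval y / γ.eval y)) := by
              rw [pow_succ]; ring
          _ = (y - x) * γ.eval y * ((a - r * c) * (γ.eval y ^ D * F1.eval (α.eval y / γ.eval y))) := by
              rw [← h5]; ring
    have e1 := congrArg (eval x) hid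
    rw [eval_mul, eval_mul, eval_C, eval_C, hm_eval D F1 α γ hF1d x hγx0, ht] at e1
    have e2 := hRx x
    rw [hm_eval D w α γ hwd.le x hγx0, hm_eval D u α γ hud.le x hγx0, ht] at e2
    have hur : u.eval r = r * w.eval r := by
      have : (u - X * w).eval r = 0 := hFr
      simp only [eval_sub, eval_mul, eval_X] at this
      linear_combination this
    rw [hur] at e2
    have hgD : γ.eval x ^ D ≠ 0 := pow_ne_zero _ hγx0
    have e3 : G.eval x * w.eval r = F1.eval r * R.eval x := by
      apply mul_left_cancel₀ hsΔ
      calc s * (a * e - b * c) * (G.eval x * w.eval r) = (s * (a * e - b * c) * G.eval x) * w.eval r := by ring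
        _ = F1.eval r * (s * (a * e - b * c) * R.eval x) := by rw [e1, e2]; ring
        _ = _ := by ring
    congr 1
    rw [div_eq_div_iff hR hw, e3]

end Pool.Agent.X135.TAU
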